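import Pool.Agent.Lib.VC.Ev

/-!
# MP_3884c4_co: a new upper bound for the simplex Ramsey chromatic numbers, for every `k`

`χ(ℝ^n, △^k) ≤ (1 + √((k+1)/k) (k+1)^(1/(2k)) + δ)^n` for all large `n`; the best known bound was
`(1 + √(2(k+1)/k) + o(1))^n`.
-/

set_option autoImplicit false

namespace Pool.Agent.Results.MP_3884c4_co.EveryDimension

open Filter

theorem result (k : ℕ) (hk : 1 ≤ k) (δ : ℝ) (hδ : 0 < δ) :
    ∀ᶠ n : ℕ in atTop, ∃ m : ℕ,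
      (m : ℝ) ≤ (1 + √(((k : ℝ) + 1) / k) * ((k : ℝ) + 1) ^ (1 / (2 * (k : ℝ))) + δ) ^ n ∧
      ∃ c : EuclideanSpace ℝ (Fin n) → Fin m,
        ∀ x : Fin (k + 1) → EuclideanSpace ℝ (Fin n),
          (∀ i j, i ≠ j → dist (x i) (x j) = 1) → ¬ (∀ i j, c (x i) = c (x j)) :=
  Pool.Agent.Lib.VC.main hk hδ

end Pool.Agent.Results.MP_3884c4_co.EveryDimension
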